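import Pool.Agent.H16.TK.Stmt2

/-! MONO: a smaller flap of a small flap is small; the marks do not matter. -/

set_option autoImplicit false

open Set

namespace Pool.Agent.TK

theorem pf_MONO {C : Type} {c0 : C} (hMSUB : MSUB C c0) (hMMK : MMK C c0) : MONO C c0 := by
  intro r hr M a b D D' hM hD hD' hsub hs
  obtain ⟨e, he, -, -⟩ := exists_list ((ms_finite b).inter_of_left D)
  obtain ⟨v, hv⟩ := hD'.nonempty
  have heD : ∀ z ∈ e, z ∈ D := by
    intro z hz
    have : z ∈ ms e := hz
    rw [he] at this
    exact this.2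
  have hve : v ∉ e := by
    intro h
    have : v ∈ ms e := h
    rw [he] at this
    exact Set.disjoint_left.1 hD'.disj hv this.1
  have hcp : IsCp M (ms (a ++ e)) D' := by
    refine hD'.change hM ?_ ?_
    · intro u hu
      rw [ms_append]
      by_cases huD : u ∈ D
      · right
        rw [he]
        exact ⟨hD'.nb hM hu, huD⟩
      · left
        obtain ⟨_, s, hs, hE⟩ := hu
        exact hD.nb hM ⟨huD, s, hsub hs, hE⟩
    · rw [ms_append, he, Set.disjoint_union_right]
      exact ⟨hD.disj.mono_left hsub, hD'.disj.mono_right Set.inter_subset_left⟩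
  have h1 := hMSUB r hr M a D hM hD hs e heD v (hsub hv) hve
  rw [← hcp.eq_cp hM hv] at h1
  exact hMMK r hr M (a ++ e) b D' hM hcp hD' h1

end Pool.Agent.TK
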