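import Pool.Agent.H16.TK.Stmt2

/-! EVB: in an end-piece the direction is given by the very big components. -/

set_option autoImplicit false

open Set

namespace Pool.Agent.TK

/-- a member of the canonical sequence far out is contained in the component of the direction -/
lemma evb_sub {C : Type} {c0 : C} {M : St C} {w : Set ℕ → Set ℕ} (hM : Valid c0 M)
    (hw : IsDir M w) {A B : Set ℕ} (hA : A.Finite) (hB : B.Finite) (hd : Disjoint (w A) B) :
    w A ⊆ w B := by
  obtain ⟨x, hx⟩ := (hw.1 (A ∪ B) (hA.union hB)).nonempty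
  have h1 : x ∈ w A := hw.2 A (A ∪ B) (hA.union hB) Set.subset_union_left hx
  have h2 : x ∈ w B := hw.2 B (A ∪ B) (hA.union hB) Set.subset_union_right hx
  exact ((hw.1 A hA).cd hM).subset hM (hw.1 B hB) hd h1 h2

theorem pf_EVB {C : Type} {c0 : C} (hNFA : NFA C c0) (hMONO : MONO C c0) : EVB C c0 := by
  classical
  intro b M w A S a D hb hM hC hA0 hwD hbig hlev e he v hv hve
  obtain ⟨hN1, hN2, hN3⟩ := hNFA M hM w (Dm M w) A S hC
  have hfin : ∀ n, (A n).Finite := fun n => (hN1 n).1
  have hdecr1 : ∀ n, w (A (n + 1)) ⊆ w (A n) := fun n => (hN1 n).2.2.2.2.2.2.1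
  have hdecr : ∀ m n, m ≤ n → w (A n) ⊆ w (A m) := by
    intro m n hmn
    induction hmn with
    | refl => exact Set.Subset.refl _
    | step _ ih => exact (hdecr1 _).trans ih
  have hAmono1 : ∀ n, A n ⊆ A (n + 1) := by
    intro n
    rw [hC.succ n]
    exact Set.subset_union_left
  have hAmono : ∀ m n, m ≤ n → A m ⊆ A n := by
    intro m n hmn
    induction hmn with
    | refl => exact Set.Subset.refl _
    | step _ ih => exact ih.trans (hAmono1 _)
  -- far members avoid a finite set
  have hfar : ∀ B : List ℕ, ∃ k, Disjoint (w (A k)) (ms B) := by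
    intro B
    induction B with
    | nil => exact ⟨0, by simp [ms]⟩
    | cons x B ih =>
      obtain ⟨k1, h1⟩ := ih
      obtain ⟨k2, h2⟩ := hN3 x
      refine ⟨max k1 k2, ?_⟩
      rw [Set.disjoint_left] at h1 ⊢
      intro y hy hyB
      rcases List.mem_cons.1 (show y ∈ x :: B from hyB) with rfl | hyB'
      · exact h2 (hdecr _ _ (le_max_right _ _) hy)
      · exact h1 (hdecr _ _ (le_max_left _ _) hy) hyB'
  have hdir := hC.dir
  have hDcp : IsCp M (ms a) D := by
    rw [← hwD, ← hA0]
    exact hdir.1 (A 0) (hfin 0)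
  have hva : v ∉ a := fun h => Set.disjoint_left.1 hDcp.disj hv h
  have hvae : v ∉ ms (a ++ e) := by
    rw [ms_append]
    rintro (h | h)
    · exact hva h
    · exact hve h
  constructor
  · -- very big components belong to the direction
    intro hVB
    by_contra hvw
    obtain ⟨k, hk⟩ := hfar (a ++ e)
    have hsubk : w (A k) ⊆ w (ms (a ++ e)) :=
      evb_sub hM hdir (hfin k) (ms_finite _) hk
    set D1 := cp M (ms (a ++ e)) v with hD1
    have hD1cp : IsCp M (ms (a ++ e)) D1 := isCp_cp hvae
    have hD1k : ∀ x ∈ D1, x ∉ w (A k) := by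
      intro x hx hxk
      have heq := hD1cp.eq_of_inter hM (hdir.1 _ (ms_finite (a ++ e))) hx (hsubk hxk)
      apply hvw
      rw [← heq]
      exact self_mem_cp hvae
    have hD1D : D1 ⊆ D := by
      refine cp_subset hM hDcp ?_ hv
      rw [ms_append]
      exact Set.subset_union_left
    obtain ⟨e', he', -, -⟩ := exists_list ((hfin k).inter_of_left D1)
    have he'D : ∀ z ∈ e', z ∈ D1 := by
      intro z hz
      have : z ∈ ms e' := hz
      rw [he'] at this
      exact this.2
    obtain ⟨x, hx, hxe', hxs⟩ := hVB.2 e' he'D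
    apply hxs
    -- `x` is outside of `A k`
    have hxA : x ∉ A k := by
      intro h
      apply hxe'
      have : x ∈ ms e' := by
        rw [he']
        exact ⟨h, hx⟩
      exact this
    -- the level of `x`
    have hex : ∃ n, x ∉ w (A n) := ⟨k, hD1k x hx⟩
    have hn0 : Nat.find hex ≠ 0 := by
      intro h
      have := Nat.find_spec hex
      rw [h, hwD] at this
      exact this (hD1D hx)
    obtain ⟨n, hn⟩ := Nat.exists_eq_succ_of_ne_zero hn0
    have hxn : x ∈ w (A n) := by
      by_contra h
      have := Nat.find_min' hex h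
      omega
    have hxn1 : x ∉ w (A (n + 1)) := by
      have := Nat.find_spec hex
      rw [hn] at this
      exact this
    have hnk : n + 1 ≤ k := by
      have := Nat.find_min' hex (hD1k x hx)
      omega
    have hxA1 : x ∉ A (n + 1) := fun h => hxA (hAmono _ _ hnk h)
    have hlevx : Lev M w A n (cp M (A (n + 1)) x) := by
      refine ⟨isCp_cp hxA1, cp_subset hM (hdir.1 _ (hfin n)) (hAmono1 n) hxn, ?_⟩
      intro h
      apply hxn1
      rw [← h]
      exact self_mem_cp hxA1
    obtain ⟨a1, ha1, hsm1⟩ := hlev n _ hlevx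
    -- the small component
    have hxB : x ∉ ms (a ++ e ++ e') := by
      rw [ms_append]
      rintro (h | h)
      · exact Set.disjoint_left.1 hD1cp.disj hx h
      · exact hxe' h
    have hD2 : IsCp M (ms (a ++ e ++ e')) (cp M (ms (a ++ e ++ e')) x) := isCp_cp hxB
    have hD2D1 : cp M (ms (a ++ e ++ e')) x ⊆ D1 := by
      refine cp_subset hM hD1cp ?_ hx
      rw [ms_append (a ++ e) e']
      exact Set.subset_union_left
    have hdisj : Disjoint (cp M (ms (a ++ e ++ e')) x) (A (n + 1)) := by
      rw [Set.disjoint_left]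
      intro y hy hyA
      have hye' : y ∈ ms e' := by
        rw [he']
        exact ⟨hAmono _ _ hnk hyA, hD2D1 hy⟩
      apply Set.disjoint_left.1 hD2.disj hy
      rw [ms_append]
      exact Or.inr hye'
    have hsub : cp M (ms (a ++ e ++ e')) x ⊆ cp M (A (n + 1)) x :=
      (hD2.cd hM).subset hM (isCp_cp hxA1) hdisj (self_mem_cp hxB) (self_mem_cp hxA1)
    exact hMONO b hb M a1 (a ++ e ++ e') _ _ hM ha1 hD2 hsub hsm1
  · -- components of the direction are very big
    intro hvw
    have hcpv : w (ms (a ++ e)) = cp M (ms (a ++ e)) v :=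
      (hdir.1 _ (ms_finite (a ++ e))).eq_cp hM hvw
    refine ⟨hvae, ?_⟩
    intro e' he'
    have hw1 : IsCp M (ms (a ++ e ++ e')) (w (ms (a ++ e ++ e'))) := hdir.1 _ (ms_finite _)
    obtain ⟨x, hx⟩ := hw1.nonempty
    have hsubw : w (ms (a ++ e ++ e')) ⊆ w (ms (a ++ e)) := by
      refine hdir.2 _ _ (ms_finite _) ?_
      rw [ms_append (a ++ e) e']
      exact Set.subset_union_left
    refine ⟨x, ?_, ?_, ?_⟩
    · rw [← hcpv]
      exact hsubw hx
    · intro h
      apply Set.disjoint_left.1 hw1.disj hx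
      rw [ms_append]
      exact Or.inr h
    · intro hsm
      rw [← hw1.eq_cp hM hx] at hsm
      obtain ⟨k, hk⟩ := hfar (a ++ e ++ e')
      have hsubk : w (A k) ⊆ w (ms (a ++ e ++ e')) :=
        evb_sub hM hdir (hfin k) (ms_finite _) hk
      obtain ⟨l, hl, -, -⟩ := exists_list (hfin k)
      have hcpk : IsCp M (ms l) (w (A k)) := by
        rw [hl]
        exact hdir.1 _ (hfin k)
      exact hbig k ⟨l, hcpk, hMONO b hb M (a ++ e ++ e') l _ _ hM hw1 hcpk hsubk hsm⟩

end Pool.Agent.TK
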